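import Pool.Agent.Q246.TP.Add

/-!
# The defect of Deligne's conjecture for Artin twists is local

`K` is a number field (for Deligne's conjecture, `K = ℚ`), `M` a motive over `K`, given by its Frobenius
eigenvalues at almost all places, `m` an integer to the right of the strip, and `p` are the periods of
the twists `M^σ ⊗ χ`.  Deligne's conjecture for `M ⊗ χ` says that for all automorphisms `σ` of `ℂ`
`σ(L(m, M ⊗ χ) / p(M ⊗ χ)) = L(m, M^σ ⊗ χ^σ) / p(M^σ ⊗ χ^σ)`.
-/

set_option autoImplicit false

namespace Pool.Agent.Results.MP_100fe7_nt.DeligneDefectIsLocal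

open NumberField
open Pool.Agent.Q246.TP (Datum indK)
open Pool.Agent.Q20.RS (FinExt GalF Fn Char Sign Kind)
open Pool.Agent.Q20.RS.RL (Lin InV HasLocalConstants)

/-- the intermediate fields of `K̄/K` -/
abbrev Sub (K : Type) [Field K] : Type := IntermediateField K (AlgebraicClosure K)

section
variable {K : Type} [Field K] [NumberField K]

/-- (1) Let Deligne's conjecture hold up to roots of unity for the characters induced from the trivial
characters of all fields `F` and from the linear characters, unramified at all finite places outside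
`T`, of the totally complex fields `F` of degree divisible by `N`.  Then it holds up to roots of unity
for all characters in `V(T)`, for instance for all linear characters whose squares are unramified outside
`T`, and the defect is the product of unique local constants. -/
def DefectIsLocal (x : Datum K) : Prop :=
  ∀ (N : ℕ) (T : Set ℕ), 0 < N →
    (∀ (F : Sub K) (ψ : Lin F), FinExt F → ψ.cls N T → x.Roots (indK F ψ.fn)) →
    (∀ (F : Sub K) (χ : Fn F), FinExt F → Char χ → InV T χ → x.Roots (indK F χ)) ∧
    (∀ (F : Sub K) (ψ : Lin F), FinExt F → ψ.smooth → (ψ.mul ψ).unr T →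
      x.Roots (indK F ψ.fn)) ∧
    HasLocalConstants T x.cls

/-- (2) `K` is totally real, `s = ±1`, `ε` a quadratic or trivial character with value `s` at all
complex conjugations (one exists).  If Deligne's conjecture holds up to roots of unity for the
characters induced from the trivial characters, from the class group characters and from the linear
characters of parity `s` with one bad prime, then it holds up to roots of unity for all characters. -/
def ThreeKinds (x : Datum K) : Prop :=
  ∀ s : ℂˣ, s = 1 ∨ s = -1 →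
    (∃ ε : Gal(AlgebraicClosure K/K) →* ℂˣ, Sign s ε) ∧
    ∀ ε : Gal(AlgebraicClosure K/K) →* ℂˣ, Sign s ε →
    ∀ (N : ℕ) (S : Finset ℕ) (L : Sub K), 0 < N → FinExt L →
      (∀ (F : Sub K) (ψ : Pool.Agent.Q20.RS.Lin F), FinExt F → Kind s ε N S L ψ →
        x.Roots (indK F ψ.fn)) →
      ∀ (F : Sub K) (χ : Fn F), FinExt F → Char χ → x.Roots (indK F χ)

theorem defect_is_local (x : Datum K) : DefectIsLocal x := by
  intro N T hN h
  obtain ⟨h1, h2⟩ := Pool.Agent.Q20.RS.RL.reduction (K := K) (T := T) hN
    Pool.Agent.Q246.TP.defects_tfd x.cls_addInd (fun F hF ψ hψ =>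
      (x.cls_zero hF (Pool.Agent.Q20.RS.RL.cls_char hψ)).2 (h F ψ hF hψ))
  refine ⟨fun F χ hF hχ hV => (x.cls_zero hF hχ).1 (h1 F hF χ hχ hV), fun F ψ hF hψ h3 => ?_, h2⟩
  have hχ := Pool.Agent.Q20.RS.RL.smooth_char hψ
  refine (x.cls_zero hF hχ).1 (h1 F hF _ hχ ?_)
  refine ((Pool.Agent.Q20.RS.RL.examples (K := K) T F hF).1 ψ hψ).2 ?_
  have e : ψ.mul ψ = (HPow.hPow (α := GalF F →* ℂˣ) (β := ℕ) ψ 2 : GalF F →* ℂˣ) :=
    (sq (M := GalF F →* ℂˣ) ψ).symm
  rwa [e] at h3

theorem three_kinds [IsTotallyReal K] (x : Datum K) : ThreeKinds x := fun s hs =>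
  ⟨(Pool.Agent.Q20.RS.induction (K := K) s hs).1, fun _ hε _ _ _ hN hL hx _ _ hF hχ =>
    x.kinds hs hε hN hL hx hF hχ⟩

/-- **Theorem.** -/
theorem result (K : Type) [Field K] [NumberField K] (x : Datum K) :
    x.WellDefined ∧ DefectIsLocal x ∧ (IsTotallyReal K → ThreeKinds x) :=
  ⟨x.wellDefined, defect_is_local x, fun _ => three_kinds x⟩

end

end Pool.Agent.Results.MP_100fe7_nt.DeligneDefectIsLocal
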