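import Pool.Agent.Q5.DP.Fix

/-! Deligne's conjecture for a motive over the subfields of a Galois extension of `ℚ`: the case of the
subfields `F` such that `L / F` is hyperelementary implies the case of all subfields. -/

namespace Pool.Agent.Results.MP_100fe7_nt.HyperelementaryDescent

open NumberField Pool.Agent.Q5.DP Pool.Agent.Q5.SO

theorem result (E : Type) [Field E] [NumberField E] (M : Mot E) (hM : IsCritical M) :
    -- (1) the values and the periods over the number fields exist and are not zero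
    (∀ (F : Type) [Field F] [NumberField F], (∃ ℓ, IsValue M F ℓ) ∧ (∃ c, IsPeriod M F c) ∧
      (∀ ℓ, IsValue M F ℓ → ∀ τ, ℓ τ ≠ 0) ∧ ∀ c, IsPeriod M F c → ∀ τ, c τ ≠ 0) ∧
    -- (2) Deligne's conjecture is compatible with the relations between permutation characters
    (∀ (ι : Type) [Fintype ι] (Z : ι → Type) [∀ j, Field (Z j)] [∀ j, NumberField (Z j)]
      (n : ι → ℤ), (∀ g : AlgebraicClosure ℚ ≃+* AlgebraicClosure ℚ,
        ∑ j, n j * (fixed (Z j) g : ℤ) = 0) →
      ∀ ℓ c : ι → (E →+* ℂ) → ℂ, (∀ j, IsValue M (Z j) (ℓ j)) → (∀ j, IsPeriod M (Z j) (c j)) →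
      ∃ e : E, e ≠ 0 ∧ ∀ τ, ∏ j, (ℓ j τ / c j τ) ^ (n j) = τ e) ∧
    -- (3) the descent
    ∀ (L : Type) [Field L] [NumberField L] [IsGalois ℚ L],
      (∀ (F : Type) [Field F] [NumberField F] [Algebra F L], Hyper (L ≃ₐ[F] L) → Deligne M F) →
      ∀ (F : Type) [Field F] [NumberField F] [Algebra F L], Deligne M F := by
  have hPF := period_formula hM
  refine ⟨fun F _ _ => ⟨exists_value hM.pure hM.wt F, ?_, fun ℓ h τ => value_ne hM.pure hM.wt h τ,
    fun c h τ => period_ne hPF trivial h τ⟩, ?_, ?_⟩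
  · obtain ⟨Ap, Am, -, -, hF⟩ := hPF
    exact (hF F trivial).1
  · intro ι _ Z _ _ n h ℓ c hℓ hc
    exact quot_rel hPF hM.pure hM.wt (fun _ => trivial) h hℓ hc
  · intro L _ _ _ h F _ _ _
    exact hyper_descent hM L h F

end Pool.Agent.Results.MP_100fe7_nt.HyperelementaryDescent
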