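import Pool.Agent.Q5.DP.Ratio

/-! The ratio of two critical values of a motive: descent from number fields to `ℚ`. -/

namespace Pool.Agent.Results.MP_100fe7_nt.RatioOfCriticalValues

open NumberField Pool.Agent.Q5.DP Pool.Agent.Q5.SO

theorem result (E : Type) [Field E] [NumberField E] (D : FrobData E) (hD : D.Pure)
    (hwt : D.wt ≤ -3) (k : ℕ) (X Y : (E →+* ℂ) → ℂ) (hX : ∀ τ, X τ ≠ 0) (hY : ∀ τ, Y τ ≠ 0) :
    -- (1) the values exist and are not zero
    (∀ (F : Type) [Field F] [NumberField F], (∃ ℓ, ValueAt D F k ℓ) ∧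
      ∀ ℓ, ValueAt D F k ℓ → ∀ τ, ℓ τ ≠ 0) ∧
    -- (2) the subfields of a Galois extension
    (∀ (L : Type) [Field L] [NumberField L] [IsGalois ℚ L],
      (∀ (F : Type) [Field F] [NumberField F] [Algebra F L], Hyper (L ≃ₐ[F] L) →
        Ratio D k X Y F) →
      ∀ (F : Type) [Field F] [NumberField F] [Algebra F L], Ratio D k X Y F) ∧
    -- (3) families closed under composita
    (∀ 𝓕 : Set (Subfield (AlgebraicClosure ℚ)), ExactS 𝓕 →
      (∀ F ∈ 𝓕, ∀ [NumberField F], Ratio D k X Y F) → Ratio D k X Y ℚ) ∧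
    -- (4) fields of given degrees
    ∀ S : Set ℕ, (∀ d ∈ S, ∀ n : ℕ, 0 < n → d * n ∈ S) → (∀ g : ℕ, (∀ d ∈ S, g ∣ d) → g = 1) →
      (∀ (F : Type) [Field F] [NumberField F], Module.finrank ℚ F ∈ S → Ratio D k X Y F) →
      ∀ (F : Type) [Field F] [NumberField F], Ratio D k X Y F := by
  refine ⟨fun F _ _ => ⟨?_, fun ℓ h τ => value_ne (mot_pure hD k) (mot_wt hwt k)
    (mot_value.1 h) τ⟩, ?_, ?_, ?_⟩
  · obtain ⟨ℓ, h⟩ := exists_value (mot_pure hD k) (mot_wt hwt k) F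
    exact ⟨ℓ, mot_value.2 h⟩
  · intro L _ _ _ h F _ _ _
    exact ratio_hyper hD hwt hX hY L h F
  · intro 𝓕 h h1
    exact ratio_exact hD hwt hX hY h h1
  · intro S hS hS' h F _ _
    exact ratio_sparse hD hwt hX hY hS hS' h F

end Pool.Agent.Results.MP_100fe7_nt.RatioOfCriticalValues
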