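import Pool.Agent.Q246.TP.Add

/-!
# Deligne's conjecture for Artin twists: twists of one parity

`K` is a number field (for Deligne's conjecture, `K = ℚ`), `M` a motive over `K`, given by its Frobenius
eigenvalues at almost all places, `m` an integer to the right of the strip, and `p` are the periods of
the twists `M^σ ⊗ χ`.  Deligne's conjecture for `M ⊗ χ` says that for all automorphisms `σ` of `ℂ`
`σ(L(m, M ⊗ χ) / p(M ⊗ χ)) = L(m, M^σ ⊗ χ^σ) / p(M^σ ⊗ χ^σ)`.
-/

set_option autoImplicit false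

namespace Pool.Agent.Results.MP_100fe7_nt.TwistsOfOneParity

open NumberField IsDedekindDomain Polynomial
open Pool.Agent.Q246.TP (Datum IsTw IsArtin indK galchar_ind indK_eq)
open Pool.Agent.Q20.RS (FinExt GalF Fn Char CCj)
open Pool.Agent.Q20.RS.RL (Lin Twister TotReal CharCC)
open Pool.Agent.Q246.DL (isGalChar_of_artin isGalChar_add isGalChar_nsmul isGalChar_zero
  signature cc_conj)
open Pool.Agent.Q246.BI (IsGalChar)
open Pool.Agent.Q246.RP (IsCC)

/-- the intermediate fields of `K̄/K` -/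
abbrev Sub (K : Type) [Field K] : Type := IntermediateField K (AlgebraicClosure K)

section
variable {K : Type} [Field K] [NumberField K]

/-- (1) Let Deligne's conjecture hold for the characters induced from the linear characters which are
unramified at all finite places.  Then `ψ` and its twists `ψη` have the same defects, and Deligne's
conjecture holds for all characters over totally real fields with commuting complex conjugations if it
holds for the linear characters of one parity over totally real fields. -/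
def OneParity (x : Datum K) : Prop :=
  (∀ (F : Sub K) (ψ : Lin F), FinExt F → ψ.smooth → ψ.unram → x.Holds (indK F ψ.fn)) →
    (∀ (F : Sub K) (ψ η : Lin F), FinExt F → ψ.smooth → Twister ψ η →
      x.Same 1 (indK F (ψ.mul η).fn) (indK F ψ.fn) ∧
      (x.Holds (indK F (ψ.mul η).fn) ↔ x.Holds (indK F ψ.fn))) ∧
    ∀ s : ℂ, s = 1 ∨ s = -1 →
      (∀ (F : Sub K) (ψ : Lin F), FinExt F → TotReal F → ψ.smooth → ψ.parity s →
        x.Holds (indK F ψ.fn)) →
      ∀ (F : Sub K) (χ : Fn F), FinExt F → TotReal F → CharCC χ → x.Holds (indK F χ)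

/-- `F` is a finite totally complex extension of `K` of degree divisible by `N`; it is contained in a
finite Galois extension `L` of `K` such that `L/F` is cyclic and `ψ` is a character of `Gal(L/F)`. -/
def Special (N : ℕ) {F : Sub K} (ψ : Lin F) : Prop :=
  FinExt F ∧ N ∣ Module.finrank K F ∧ IsEmpty (F →+* ℝ) ∧
    ∃ L : Sub K, FinExt L ∧ Normal K L ∧ F ≤ L ∧
      (∃ τ ∈ F.fixingSubgroup, ∀ g ∈ F.fixingSubgroup, ∃ k : ℤ, ∀ y ∈ L, g y = (τ ^ k) y) ∧
      ∀ g : GalF F, (g : Gal(AlgebraicClosure K/K)) ∈ L.fixingSubgroup → ψ.fn g = 1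

/-- Complex conjugations have the eigenvalue `1` with multiplicity `a` and the eigenvalue `-1` with
multiplicity `b` on `ρ`. -/
def HasSignature {d : ℕ} (ρ : Representation ℂ Gal(AlgebraicClosure K/K) (Fin d → ℂ)) (a b : ℕ) :
    Prop :=
  a + b = d ∧ ∀ c : Gal(AlgebraicClosure K/K), CCj c → ρ.character c = (a : ℂ) - b

/-- (2) Let Deligne's conjecture hold for the characters induced from the special linear characters.
Then the `k`-th powers of the defects of two characters with equal values at the complex conjugations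
are equal, `k` depends only on the characters and on `N`; the defect of a character of signature
`(a, b)` is, up to a `k`-th root of unity, the product of the `a`-th and `b`-th powers of the defects
of the trivial and of an odd character, the product of which is a `k`-th root of unity. -/
def SignatureLaw (K : Type) [Field K] [NumberField K] : Prop :=
  ∀ (N : ℕ), 0 < N → (∀ (d₁ d₂ : ℕ)
    (ρ₁ : Representation ℂ Gal(AlgebraicClosure K/K) (Fin d₁ → ℂ))
    (ρ₂ : Representation ℂ Gal(AlgebraicClosure K/K) (Fin d₂ → ℂ)), IsArtin ρ₁ → IsArtin ρ₂ →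
    (∀ c, CCj c → ρ₁.character c = ρ₂.character c) →
    ∃ k : ℕ, 0 < k ∧ ∀ x : Datum K,
      (∀ (F : Sub K) (ψ : Lin F), Special N ψ → x.Holds (indK F ψ.fn)) →
      x.Same k ρ₁.character ρ₂.character) ∧
  ∀ (d a b : ℕ) (ρ : Representation ℂ Gal(AlgebraicClosure K/K) (Fin d → ℂ)), IsArtin ρ →
    HasSignature ρ a b →
    ∀ ε : Representation ℂ Gal(AlgebraicClosure K/K) (Fin 1 → ℂ), IsArtin ε → HasSignature ε 0 1 →
    ∃ k : ℕ, 0 < k ∧ ∀ x : Datum K,
      (∀ (F : Sub K) (ψ : Lin F), Special N ψ → x.Holds (indK F ψ.fn)) →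
      ∀ (σ : ℂ ≃+* ℂ) (B B₀ B₁ : HeightOneSpectrum (𝓞 K) → ℂ[X]), IsTw x.α ρ x.m B →
        IsTw x.α (1 : Representation ℂ Gal(AlgebraicClosure K/K) (Fin 1 → ℂ)) x.m B₀ →
        IsTw x.α ε x.m B₁ →
        x.defect σ ρ.character B ^ k = (x.defect σ (1 : Representation ℂ
          Gal(AlgebraicClosure K/K) (Fin 1 → ℂ)).character B₀ ^ a *
          x.defect σ ε.character B₁ ^ b) ^ k ∧
        (x.defect σ (1 : Representation ℂ Gal(AlgebraicClosure K/K) (Fin 1 → ℂ)).character B₀ *
          x.defect σ ε.character B₁) ^ k = 1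

theorem one_parity (x : Datum K) : OneParity x := by
  intro hu
  have hz : ∀ {F : Sub K} (_ : FinExt F) {χ : Fn F} (_ : Char χ),
      x.D (indK F χ) = 0 ↔ x.Holds (indK F χ) := fun hF χ h =>
    (x.holds_iff (galchar_ind hF h)).symm
  obtain ⟨h1, h2⟩ := Pool.Agent.Q20.RS.RL.functions (K := K) ((ℂ ≃+* ℂ) → Additive ℂˣ)
    (fun F χ => x.D (indK F χ)) x.addInd (fun F ψ hF hψ h =>
      (hz hF (Pool.Agent.Q20.RS.RL.smooth_char hψ)).2 (hu F ψ hF hψ h))
  refine ⟨fun F ψ η hF hψ hη => ?_, fun s hs hp F χ hF hr hχ => ?_⟩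
  · have h3 : x.D (indK F (ψ.mul η).fn) = x.D (indK F ψ.fn) := h1 F ψ η hF hψ hη
    refine ⟨x.same_iff (by rw [h3]), ?_⟩
    rw [← hz hF (Pool.Agent.Q20.RS.RL.smooth_char
      (Pool.Agent.Q20.RS.RL.smooth_mul hψ hη.smooth)),
      ← hz hF (Pool.Agent.Q20.RS.RL.smooth_char hψ), h3]
  · exact (hz hF (Pool.Agent.Q20.RS.RL.charCC_char hχ)).1
      (h2 s hs (fun F ψ hF hr hψ hψs => (hz hF (Pool.Agent.Q20.RS.RL.smooth_char hψ)).2
        (hp F ψ hF hr hψ hψs)) F χ hF hr hχ)

/-- the data for which Deligne's conjecture holds for the special characters -/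
def Good (K : Type) [Field K] [NumberField K] (N : ℕ) : Type :=
  {x : Datum K // ∀ (F : Sub K) (ψ : Lin F), Special N ψ → x.Holds (indK F ψ.fn)}

theorem law {N : ℕ} (hN : 0 < N) {χ₁ χ₂ : Gal(AlgebraicClosure K/K) → ℂ} (h₁ : IsGalChar χ₁)
    (h₂ : IsGalChar χ₂) (heq : ∀ c, IsCC c → χ₁ c = χ₂ c) :
    ∃ k : ℕ, 0 < k ∧ ∀ x : Good K N, k • x.1.D χ₁ = k • x.1.D χ₂ := by
  obtain ⟨k, hk, h⟩ := Pool.Agent.Q246.BI.conj_additive
    (A := Good K N → (ℂ ≃+* ℂ) → Additive ℂˣ) (fun χ x => x.1.D χ)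
    (fun χ χ' a b => funext fun x => x.1.D_add a b) hN
    (fun f hf hfc => by
      funext x
      obtain ⟨F, ψ, hfd, ⟨L, hL, hn, hFL, hcyc, hψL⟩, htc, hdvd, hf⟩ := hf
      have e1 : f = indK F (Lin.fn (F := F) ψ) := by
        rw [hf]
        refine (indK_eq (F := F) (χ := Lin.fn (F := F) ψ) fun a b => ?_).symm
        change ((ψ (b⁻¹ * a * b) : ℂˣ) : ℂ) = ((ψ a : ℂˣ) : ℂ)
        rw [map_mul, map_mul, map_inv, mul_comm, mul_inv_cancel_left]
      have e2 : Special N (F := F) ψ := ⟨hfd, hdvd, htc, L, hL, hn, hFL, hcyc, fun g hg => by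
        change ((ψ g : ℂˣ) : ℂ) = 1
        rw [hψL g hg, Units.val_one]⟩
      have e3 := x.2 F ψ e2
      rw [← e1] at e3
      exact (x.1.holds_iff hfc).1 e3) h₁ h₂ heq
  exact ⟨k, hk, fun x => congrFun h x⟩

theorem D_nsmul (x : Datum K) {χ : Gal(AlgebraicClosure K/K) → ℂ} (h : IsGalChar χ) (k : ℕ) :
    x.D (k • χ) = k • x.D χ := by
  induction k with
  | zero =>
    rw [zero_smul, zero_smul]
    have h1 := x.D_add (isGalChar_zero (K := K)) isGalChar_zero
    rw [add_zero] at h1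
    exact left_eq_add.1 h1
  | succ k ih => rw [succ_nsmul, x.D_add (isGalChar_nsmul h k) h, ih, succ_nsmul]

theorem signature_law : SignatureLaw K := by
  intro N hN
  refine ⟨fun d₁ d₂ ρ₁ ρ₂ h₁ h₂ heq => ?_, ?_⟩
  · obtain ⟨k, hk, h⟩ := law hN (isGalChar_of_artin h₁) (isGalChar_of_artin h₂) heq
    exact ⟨k, hk, fun x hx => x.same_iff (h ⟨x, hx⟩)⟩
  · rintro d a b ρ hρ ⟨-, hc⟩ ε hε ⟨-, hcε'⟩
    have hcε : ∀ c, IsCC c → ε.character c = -1 := fun c hc => by
      rw [hcε' c hc]
      simp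
    have hone : IsArtin (1 : Representation ℂ Gal(AlgebraicClosure K/K) (Fin 1 → ℂ)) :=
      ⟨⊥, inferInstance, fun _ _ => rfl⟩
    have hone' : ∀ c : Gal(AlgebraicClosure K/K),
        (1 : Representation ℂ Gal(AlgebraicClosure K/K) (Fin 1 → ℂ)).character c = 1 := fun c => by
      change LinearMap.trace ℂ _ (1 : Module.End ℂ (Fin 1 → ℂ)) = 1
      simp
    have g₀ := isGalChar_of_artin hρ
    have g₁ := isGalChar_of_artin hone
    have g₂ := isGalChar_of_artin hε
    obtain ⟨k, hk, h⟩ := law hN g₀ (isGalChar_add (isGalChar_nsmul g₁ a) (isGalChar_nsmul g₂ b))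
      (fun c hcc => by
        rw [Pi.add_apply, Pi.smul_apply, Pi.smul_apply, hone', hcε c hcc, hc c hcc]
        simp
        ring)
    obtain ⟨k', hk', h'⟩ := law hN (isGalChar_add g₁ g₂) isGalChar_zero (fun c hcc => by
        rw [Pi.add_apply, hone', hcε c hcc]
        simp)
    refine ⟨k * k', Nat.mul_pos hk hk', fun x hx σ B B₀ B₁ hB hB₀ hB₁ => ?_⟩
    have e := congrFun (h ⟨x, hx⟩) σ
    have e' := congrFun (h' ⟨x, hx⟩) σ
    rw [x.D_add (isGalChar_nsmul g₁ a) (isGalChar_nsmul g₂ b), D_nsmul x g₁, D_nsmul x g₂] at e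
    have e0 : x.D (0 : Gal(AlgebraicClosure K/K) → ℂ) = 0 := by
      have h1 := D_nsmul x (isGalChar_zero (K := K)) 0
      rwa [zero_smul, zero_smul] at h1
    rw [x.D_add g₁ g₂, e0] at e'
    have u := congrArg (fun z : Additive ℂˣ => ((Additive.toMul z : ℂˣ) : ℂ)) e
    have u' := congrArg (fun z : Additive ℂˣ => ((Additive.toMul z : ℂˣ) : ℂ)) e'
    have v : x.defect σ ρ.character B ^ k = (x.defect σ (1 : Representation ℂ
          Gal(AlgebraicClosure K/K) (Fin 1 → ℂ)).character B₀ ^ a *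
          x.defect σ ε.character B₁ ^ b) ^ k := by
      rw [x.defect_eq σ hρ hB, x.defect_eq σ hone hB₀, x.defect_eq σ hε hB₁]
      exact u
    have v' : (x.defect σ (1 : Representation ℂ Gal(AlgebraicClosure K/K)
        (Fin 1 → ℂ)).character B₀ * x.defect σ ε.character B₁) ^ k' = 1 := by
      rw [x.defect_eq σ hone hB₀, x.defect_eq σ hε hB₁]
      have u'' : ((Additive.toMul (k' • (x.D (1 : Representation ℂ Gal(AlgebraicClosure K/K)
        (Fin 1 → ℂ)).character σ + x.D ε.character σ)) : ℂˣ) : ℂ) = 1 := by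
        have : k' • (x.D (1 : Representation ℂ Gal(AlgebraicClosure K/K)
          (Fin 1 → ℂ)).character σ + x.D ε.character σ) = 0 := by
          rw [smul_zero] at e'
          exact e'
        rw [this]
        exact Units.val_one
      exact u''
    constructor
    · rw [pow_mul, pow_mul, v]
    · rw [mul_comm k k', pow_mul, v', one_pow]

/-- **Theorem.** -/
theorem result : (∀ (K : Type) [Field K] [NumberField K],
      (∀ x : Datum K, x.WellDefined ∧ OneParity x) ∧
      (∀ (F : Sub K) (ψ : Lin F) (s : ℂ), FinExt F → ψ.smooth → (s = 1 ∨ s = -1) →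
        ∃ η : Lin F, Twister ψ η ∧ (ψ.mul η).parity s) ∧
      SignatureLaw K) ∧
    (∀ (d : ℕ) (ρ : Representation ℂ Gal(AlgebraicClosure ℚ/ℚ) (Fin d → ℂ)), IsArtin ρ →
      ∃ a b : ℕ, HasSignature ρ a b) := by
  refine ⟨fun K _ _ => ⟨fun x => ⟨x.wellDefined, one_parity x⟩,
    fun F ψ s hF hψ hs => Pool.Agent.Q20.RS.RL.exists_odd hF hψ hs, signature_law⟩, ?_⟩
  intro d ρ hρ
  by_cases hex : ∃ c : Gal(AlgebraicClosure ℚ/ℚ), IsCC c
  · obtain ⟨c₀, hc₀⟩ := hex
    obtain ⟨p, q, hpq, h1⟩ := signature (ρ := ρ) hc₀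
    refine ⟨p, q, hpq, fun c hc => ?_⟩
    obtain ⟨g, rfl⟩ := cc_conj hc₀ hc
    rw [← h1]
    exact ρ.char_conj c₀ g
  · push Not at hex
    exact ⟨d, 0, add_zero d, fun c hc => absurd hc (hex c)⟩

end

end Pool.Agent.Results.MP_100fe7_nt.TwistsOfOneParity
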